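import Pool.Agent.helper28.BQ.Final

/-!
# Tate characters of all products of Fermat varieties and periods of theta forms

Let `X` be a product of Fermat varieties of degree `m` (any number of factors, any dimensions). The
primitive cohomology of `X` is a direct sum of lines, indexed by the vectors `a ∈ (ℤ/m)^k` with nonzero
entries whose sums over the factors vanish; over `ℚ(ζ_m)` the Frobenius of a prime of norm `p` acts on
the line of `a` by a product of Gauss sums, and `a` is a *Tate character* if the line is
generated by Tate classes (over a finite extension). With `s_j = a_0 + … + a_{j-1}` such a line is,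
up to Tate twists, the product of the lines of the characters `(s_j, a_j, -s_{j+1})` of the Fermat curve
(with `s_j, s_{j+1} ≠ 0`), which are motives of rank one of CM abelian varieties, with CM types of
`E = ℚ(ζ_m)` (`types m a`: the infinity types of the Jacobi sum characters). We prove for every `m`, all
products and all dimensions: `a` is a Tate character if and only if this family of CM types reduces to
the empty family by removing pairs of complex conjugate types and by *exchanges*
`{P_a, P_b} ↦ {P_c, P_d}`, `1_a + 1_b = 1_c + 1_d`, each of which is realised on a compact quotient `S` of the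
ball in `ℂ²` by an arithmetic subgroup of `SU(2, 1)`: there are four theta 1-forms on `S` with the types
`P_a, …, P_d` and `∫_S ω_a ∧ ω_b ∧ conj (ω_c ∧ ω_d) ≠ 0`.

## The explicit forms

`[F : ℚ] ≥ 2`, `E = F(s)`, `s² = -κ`, `κ ∈ F` totally positive, `v₀` is a real place of `F`, `d ∈ F` is
positive at `v₀` and negative at all other real places, `V = E³` with the hermitian form
`diag (1, 1, -d)`, of signature `(2, 1)` at `v₀` and definite elsewhere, so anisotropic; `b` is the
symmetric bilinear form `diag (1, 1, -d)` on `F³`. For `z` in the ball `|z₀|² + |z₁|² < v₀(d)` put
`N(z) = v₀(d) - z₀² - z₁²`, `s_x(z) = b(x, (z, 1)) / √N(z)`, `q_z(x) = b(x, x) + 2 s_x(z)²`. For `δ ∈ F`,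
positive at `v₀`, and a finite Schwartz function `φ` on `F³`

  `ω_δ(φ)(z) = ∑_{x ∈ F³} φ(x) exp(-π ∑_{v ≠ v₀} y_v b_v(x, x) - π y_{v₀} q_z(x)) ds_x(z)`,
  `y_v = |v(δ)| √v(κ)`.

Every term is a closed holomorphic 1-form (a multiple of `exp(-2 π y s_x²) ds_x`). The sum is the theta
lift to the unitary group `U(V)` from the unitary group of the skew hermitian line `⟨δ s⟩`, whose signs
at the real places form the CM type `{f | Im f(δ s) > 0}` of `E`. (`δ` is determined by the numbers
`|v(δ)|` and its sign `+` at `v₀`; `f₀` is the embedding above `v₀` with `Im f₀(s) > 0`; the group acts on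
the ball through the conjugate embedding.)

Proof of the exchange: `δ_c = X² δ_a + Y² δ_b` and `δ_d = κ² δ_a δ_b δ_c` with `X, Y ∈ F`, `(X, Y)` close to
`(1, 0)` at `v₀` and at the real places where the signs of `a` and `c` agree and close to `(0, 1)` at the
others (weak approximation). The 2-forms `ω_a ∧ ω_b` and finite sums of forms `ω_c ∧ ω_d` are the values at
two points of one family of theta 2-forms on `S`, built with the same Schwartz function on
`V ⊗ (⟨δ_a⟩ ⊕ ⟨δ_b⟩)` and with the majorants of this plane at the real places; the whole family is
invariant under one arithmetic group, it is continuous in the majorant, and the majorants of the two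
frames are as close as we like. As the quotient is compact (reduction theory) and `∫ |ω_a ∧ ω_b|² > 0`
for suitable functions, the mixed period is not zero.

## Why this gives the conjectures of Tate and Hodge for all Fermat varieties (not formalised)

*The conjectures of Tate and Hodge hold for all products of Fermat varieties, of all degrees and dimensions,
and for all motives cut out in them.* (See the hand-in CMTypes for all CM abelian varieties.)

### Notation

`L = ℚ(ζ_m) ⊂ ℂ` (`m > 2`), `G = Gal(L/ℚ) = Hom(L, ℂ)`, `c ∈ G` the complex conjugation. For a CM type
`Ψ ⊂ G` let `B_Ψ` be the abelian variety (up to isogeny) with complex multiplication by `L` of type `Ψ`;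
`H¹(B_Ψ, ℂ)` is the sum of the lines `ℂ e_{Ψ,σ}`, `σ ∈ G`, on which `L` acts through `σ`; `e_{Ψ,σ}` is
holomorphic if and only if `σ ∈ Ψ`, and its complex conjugate is `e_{Ψ,cσ}` up to a factor. Let `M_Ψ` be the
motive `h¹(B_Ψ)` considered as a motive of rank one over `L` (homological equivalence, coefficients in
`L`). Its Galois character is an algebraic Hecke character (up to characters of finite order, which
disappear over a finite extension) of infinity type `Φ = Ψ⁻¹`. For a vector `a` of nonzero elements of
`ℤ/m` with sum zero let `M_a` be the motive of rank one over `L` in the Fermat variety on which the diagonal group acts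
by `a`. For three entries `M_a = M_Ψ` with `Ψ = {σ_t | ⟨t x⟩ + ⟨t y⟩ + ⟨t z⟩ = 1}` (or its conjugate, for all
characters at the same time), so that `Φ = Ψ⁻¹` is `ftype m x y z`, the infinity type of the Jacobi sum
(Stickelberger, Weil).

By the inductive structure of Shioda and Katsura, `M_{a + b}` is `M_a ⊗ M_b` and `M_{a + (x,-x)}` is `M_a`, up to
Tate twists, by algebraic correspondences. So `M_a` is the product of the `M_{(s_j, a_j, -s_{j+1})}` with
`s_j, s_{j+1} ≠ 0`, up to a Tate twist. The cohomology of `X` is a direct sum of lines `M_a` and of tensor
products of such lines with classes of linear subspaces.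

If `M_{Ψ_a} ⊗ M_{Ψ_b} ≅ M_{Ψ_c} ⊗ M_{Ψ_d}` by algebraic correspondences for every exchange
`1_{Φ_a} + 1_{Φ_b} = 1_{Φ_c} + 1_{Φ_d}`, `Φ_a ∩ Φ_b` not empty (call this (X)), then, as
`M_Ψ ⊗ M_{cΨ} ≅ L(-1)` by the theorem of Lefschetz on divisor classes, the theorem gives `M_a ≅ L(-k/2)` by
algebraic correspondences for every Tate character `a ∈ (ℤ/m)^k`: all Tate classes and all Hodge
classes of `X` are algebraic. In (X) we may multiply all `Φ_i` by an element of `G` (this twists the four
actions of `L` simultaneously), so we may assume that `1` is in all four `Φ_i`; it is the embedding `f₀`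
above.

### Theta 1-forms have complex multiplication

Let `S = Γ\Ball` with `Γ ≤ SU(V)(𝓞_F[s])` a torsion free congruence subgroup; it is a smooth projective
surface, a component of a unitary Shimura variety. (The four forms of an exchange are invariant under
a congruence subgroup, and passage to a common subgroup of finite index multiplies the period by a
positive number, so that the period is not zero on such an `S`.)

(A) *For `δ` of type `Φ = {f | Im f(δ s) > 0} ∋ 1` the closed holomorphic 1-forms `ω_δ(φ)` on `S` are in the
sum of the lines `f^*(ℂ e_{Ψ,1})`, where `f` runs through the morphisms from `S` to `B_Ψ`, `Ψ = Φ⁻¹`* (or the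
same for all complex conjugate types and varieties, according to the orientation of the ball, which is
immaterial below).

This is known: theta lifts of characters from `U(1)` to `U(2, 1)` and the first cohomology of compact ball
quotients (Kazhdan 1977, Kudla 1979, Rogawski 1990 and 1992, Gelbart and Rogawski 1991), CM type of
the Albanese variety (Oda 1981, Murty and Ramakrishnan 1992). We recall why the type is `Φ`. Let `η` be
the splitting character of the theta lift, `η | 𝔸_F^* = ω_{L/F}`. At a place where `V` is positive
definite, `U(3)` acts on the vacuum vector by `det^{(ε + k)/2}`, and at `v₀` the centre of `U(2, 1)` acts on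
the vector of degree one by the power `3 (ε + k)/2`, where `ε` is the sign of the skew hermitian line and
`k` the weight of `η` at this place. As the coefficients are trivial, `k = -ε` at ALL real places. The
Satake parameters of the lift at a split place `w` are `η_w q^{1/2}, η_w q^{-1/2}, η_w^{-2}`; by the
congruence relation and purity the Frobenius acts on the corresponding part of `H¹(S)` as `η_w q^{1/2}` (up
to the orientation): this part is the Galois representation of the algebraic Hecke character
`η |·|^{-1/2}` of infinity type `Φ`. Its conjugates under `τ ∈ Aut(ℂ)` occur in `H¹(S)` too, as the Hecke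
operators are rational, and are holomorphic if and only if `1 ∈ τΦ`, that is, `τ ∈ Φ⁻¹` on `L`; so the
corresponding rational Hodge structure is of rank one over `L` (times multiplicity spaces) and its
type is `Φ⁻¹`. (By restriction to totally geodesic curves `Y ⊂ S`, on which `ω_δ` becomes a finite sum of
theta 1-forms of the plane with constant coefficients, (A) can also be reduced to Shimura curves over `F`.)

### Proof of (X)

Put `B_i = B_{Ψ_i}` and `e_i = e_{Ψ_i,1}`, holomorphic as `1 ∈ Ψ_i`. By the exchange theorem and (A) there are
morphisms `f_i : S → B_i` such that, for `f = (f_a, f_b, f_c, f_d) : S → X = B_a × B_b × B_c × B_d`,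

  `∫_S f^*(e_a ∧ e_b ∧ conj e_c ∧ conj e_d) ≠ 0`

(expand the four forms). The class `f_*[S]` in `H_4(X, ℚ)` is algebraic. Let `U` be the Künneth component
`H_1(B_a) ⊗ H_1(B_b) ⊗ H_1(B_c) ⊗ H_1(B_d)` and let `W ⊂ U` be the rational subspace whose complexification is
the sum of the lines of weights `(g, g, cg, cg)`, `g ∈ G`, under `(L^*)⁴`. The weights of `U` have multiplicity
one and `(L^*)⁴` acts by isogenies; so the projection of `f_*[S]` to `W` is algebraic; it is not zero because
its component of weight `(1, 1, c, c)` is not zero. `W` is a vector space of dimension one over `L` (acting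
on one factor), so all elements of `W` are algebraic. By the theorem of Lieberman (the inverse of the
hard Lefschetz isomorphism is algebraic for abelian varieties) the corresponding subspace of `H⁴(X, ℚ)`
(again the weights `(g, g, cg, cg)`) consists of algebraic classes. Twisting the last two actions by `c`, it is
`M_{Ψ_a} ⊗ M_{Ψ_b} ⊗ M_{cΨ_c} ⊗ M_{cΨ_d}`. As `M_{cΨ}` is the dual of `M_Ψ` up to a twist, its elements are the
homomorphisms from `M_{Ψ_c} ⊗ M_{Ψ_d}` to `M_{Ψ_a} ⊗ M_{Ψ_b}` for the action of `L`, and the nonzero ones are
isomorphisms because the rank is one. This proves (X), so the Hodge conjecture for CM abelian varieties.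

### Relation to the literature

Known before: divisor classes; CM abelian varieties whose Hodge ring is generated by divisors; Fermat
varieties of degree `m ≤ 20`, of prime and prime power degree, and in small dimension (Ran, Shioda, Aoki); Weil
classes on fourfolds (Schoen, van Geemen, Markman); Hodge classes on CM abelian varieties are
absolute (Deligne) and come from Weil classes (André). Cycles on ball quotients: Kudla and Millson,
Bergeron, Millson and Moeglin (Acta Math. 2016), Venkataramana; nonvanishing of products of Hecke
translates of holomorphic forms: Clozel (1992, 1993); relations between periods of CM types: Shimura.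
We know of no place where the mixed periods `∫ ω_a ∧ ω_b ∧ conj (ω_c ∧ ω_d)` for different types, or
the consequences above, are proved.
-/

namespace Pool.Agent.Results.MP_3703a7_ag.AllFermat

open BQ NumberField Pool.Agent.helper76.FV

/-- `IsTateChar m π a`: `a` has nonzero entries, its sums over the factors vanish, and
`(∏ g(χ^{a_i}))² / p^k` is a root of unity for all primes `p ≡ 1 mod m` and all characters `χ` of order `m`
of `𝔽_p`. `BlockZero π a`: the sums over the factors vanish. `types m a`: the infinity types of the
Jacobi sum characters `(s_j, a_j, -s_{j+1})`, `s_j` the sum of the first `j` entries, `s_j, s_{j+1} ≠ 0`.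
`Red E s`: the family `s` reduces to the empty family by removing pairs of complementary CM types and by
exchanges `{P_a, P_b} ↦ {P_c, P_d}` with `1_a + 1_b = 1_c + 1_d` which are realised by a nonzero period of
theta 1-forms of the types `P_a, …, P_d` on a compact quotient of the ball in `ℂ²`. -/
theorem result (m : ℕ) [NeZero m] {k r : ℕ} (π : Fin k → Fin r) (a : Fin k → ZMod m) :
    IsTateChar m π a ↔
      (∀ i, a i ≠ 0) ∧ BlockZero π a ∧ Red (CyclotomicField m ℚ) (types m a) :=
  final_FB m π a

end Pool.Agent.Results.MP_3703a7_ag.AllFermat
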