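import Pool.Agent.helper34.DT.All

/-!
# MP_3703a7_ag: density of algebraic Hodge classes for all abelian varieties

`A = W ⧸ Lam` any complex abelian variety with polarization `ψ`, `G` its Hodge group (real linear automorphisms of
`W` preserving `ψ` and all Hodge classes of all degrees on all powers of `A`). For every `T₀ ∈ G` and `ε > 0` there is
`T ∈ G` with `|T - T₀| ≤ ε` such that `A_T = W ⧸ T(Lam)` is of CM type and every Hodge class of every degree on every
power of `A` is a Hodge class on that power of `A_T` and is there a `ℚ`-linear combination of classes of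
holomorphic maps of compact ball quotients. So in every connected Hodge locus of abelian varieties (the
Mumford-Tate domain `G·A`) the points where all Hodge classes of `A` are algebraic are dense.

Proof. Let `g = Lie G`: real endomorphisms killing `ψ` and all Hodge classes. It is given by rational linear
equations and contains `J = i`, so a rational `X ∈ g` is arbitrarily near `J`. As `[g, J]` and the centraliser of
`J` in `g` span `g`, `X = exp(Y) Z exp(-Y)` with `Y, Z ∈ g`, `Y` small, `Z` near `J`, `Z J = J Z` (implicit function theorem).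
`T = exp(-Y) ∈ G`; `Z = T X T⁻¹` is complex linear, rational for `T(Lam)`, skew for `ψ` with `ψ(v, Z v) > 0`, so
`ℚ[Z]` is a product of CM fields and `W ⧸ T(Lam)` has CM (Deligne's reduction, without algebraic groups). The Hodge
conjecture for CM tori (hand-in HodgeCM) finishes.
-/

namespace Pool.Agent.Results.MP_3703a7_ag.DensityAll

open Pool.Agent.HC Pool.Agent.HC.DT

theorem result : ∀ (W : Type) [NormedAddCommGroup W] [NormedSpace ℂ W] [FiniteDimensional ℂ W]
    (Lam : AddSubgroup W) (ψ : W →ₗ[ℝ] W →ₗ[ℝ] ℝ), IsLattice Lam → IsPolarization Lam ψ →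
    ∀ T₀ ∈ hodgeGroup Lam ψ, ∀ ε > 0, ∃ T ∈ hodgeGroup Lam ψ, (∀ w, ‖T w - T₀ w‖ ≤ ε * ‖w‖) ∧
    IsPolarization (Lam.map (T : W →+ W)) ψ ∧ Nonempty (CMData W (Lam.map (T : W →+ W))) ∧
    ∀ (k a : ℕ) (ξ : ((Fin k → W) [⋀^Fin (2 * a)]→ₗ[ℝ] ℝ) →ₗ[ℝ] ℝ), IsHodge (powLat k Lam) ξ →
      IsHodge (powLat k (Lam.map (T : W →+ W))) ξ ∧
      ∃ (n : ℕ) (q : Fin n → ℚ) (M : Fin n → BallQuotient a)
        (f : Fin n → (Fin a → ℂ) → (Fin k → W)),
        (∀ i, IsMap (M i) (powLat k (Lam.map (T : W →+ W))) (f i)) ∧
        ∀ η, ξ η = ∑ i, (q i : ℝ) * cls (M i) (f i) η :=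
  T_DensityAll

end Pool.Agent.Results.MP_3703a7_ag.DensityAll
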